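import Pool.Agent.H68.MW.Defs

/-! # MP_1fe246_co: module CNT (pure counting): right special words and the first difference of the
factor complexity. -/

set_option autoImplicit false
open Asymptotics

namespace Pool.Agent.H30.MW

open Pool.Agent.H68.MW

/-- factor of length `n` at `i`, as a function -/
def F {α : Type} (u : ℕ → α) (n i : ℕ) : Fin n → α := fun j => u (i + j.val)

/-- right special factors (one-sided word) -/
def R {α : Type} (u : ℕ → α) (n : ℕ) : Set (Fin n → α) :=
  {w | ∃ i j : ℕ, F u n i = w ∧ F u n j = w ∧ u (i + n) ≠ u (j + n)}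

noncomputable def p {α : Type} (u : ℕ → α) (n : ℕ) : ℕ := (Set.range (F u n)).ncard

noncomputable def rho {α : Type} (u : ℕ → α) (n : ℕ) : ℕ := (R u n).ncard

theorem F_eq_iff {α : Type} (u : ℕ → α) (n i j : ℕ) :
    F u n i = F u n j ↔ ∀ k, k < n → u (i + k) = u (j + k) := by
  constructor
  · intro h k hk
    exact congrFun h ⟨k, hk⟩
  · intro h
    funext k
    exact h k.val k.isLt

theorem F_succ_eq_iff {α : Type} (u : ℕ → α) (n i j : ℕ) :
    F u (n + 1) i = F u (n + 1) j ↔ F u n i = F u n j ∧ u (i + n) = u (j + n) := by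
  rw [F_eq_iff, F_eq_iff]
  constructor
  · intro h
    exact ⟨fun k hk => h k (by omega), h n (by omega)⟩
  · rintro ⟨h1, h2⟩ k hk
    rcases Nat.lt_succ_iff_lt_or_eq.mp hk with hk | rfl
    · exact h1 k hk
    · exact h2

theorem step {α : Type} [Fintype α] (u : ℕ → α) (n : ℕ) :
    p u n + rho u n ≤ p u (n + 1) ∧ p u (n + 1) ≤ p u n + Fintype.card α * rho u n := by
  classical
  set S : Finset (Fin n → α) := (Set.toFinite (Set.range (F u n))).toFinset with hS
  set T : Finset (Fin (n + 1) → α) := (Set.toFinite (Set.range (F u (n + 1)))).toFinset with hT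
  have hp : p u n = S.card := by
    unfold p
    rw [Set.ncard_eq_toFinset_card _ (Set.toFinite _)]
  have hp1 : p u (n + 1) = T.card := by
    unfold p
    rw [Set.ncard_eq_toFinset_card _ (Set.toFinite _)]
  have hrho : rho u n = (S.filter (fun w => w ∈ R u n)).card := by
    unfold rho
    rw [Set.ncard_eq_toFinset_card _ (Set.toFinite _)]
    congr 1
    ext w
    simp only [Set.Finite.mem_toFinset, Finset.mem_filter, hS]
    constructor
    · intro h
      refine ⟨?_, h⟩
      obtain ⟨i, j, h1, h2, h3⟩ := h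
      exact ⟨i, h1⟩
    · intro h
      exact h.2
  let res : (Fin (n + 1) → α) → (Fin n → α) := fun w k => w k.castSucc
  have hres : ∀ i, res (F u (n + 1) i) = F u n i := by
    intro i
    rfl
  have hmap : ∀ x ∈ T, res x ∈ S := by
    intro x hx
    rw [hT, Set.Finite.mem_toFinset] at hx
    obtain ⟨i, rfl⟩ := hx
    rw [hres, hS, Set.Finite.mem_toFinset]
    exact ⟨i, rfl⟩
  have hsum : T.card = ∑ w ∈ S, (T.filter (fun x => res x = w)).card :=
    Finset.card_eq_sum_card_fiberwise hmap
  have hlow : ∀ w ∈ S, 1 + (if w ∈ R u n then 1 else 0) ≤ (T.filter (fun x => res x = w)).card := by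
    intro w hw
    split_ifs with hR
    · obtain ⟨i, j, h1, h2, h3⟩ := hR
      have : 1 < (T.filter (fun x => res x = w)).card := by
        rw [Finset.one_lt_card]
        refine ⟨F u (n + 1) i, ?_, F u (n + 1) j, ?_, ?_⟩
        · rw [Finset.mem_filter, hT, Set.Finite.mem_toFinset]
          exact ⟨⟨i, rfl⟩, by rw [hres]; exact h1⟩
        · rw [Finset.mem_filter, hT, Set.Finite.mem_toFinset]
          exact ⟨⟨j, rfl⟩, by rw [hres]; exact h2⟩
        · intro h
          exact h3 ((F_succ_eq_iff u n i j).mp h).2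
      omega
    · rw [hS, Set.Finite.mem_toFinset] at hw
      obtain ⟨i, rfl⟩ := hw
      have : 0 < (T.filter (fun x => res x = F u n i)).card := by
        rw [Finset.card_pos]
        refine ⟨F u (n + 1) i, ?_⟩
        rw [Finset.mem_filter, hT, Set.Finite.mem_toFinset]
        exact ⟨⟨i, rfl⟩, hres i⟩
      omega
  have hup : ∀ w ∈ S, (T.filter (fun x => res x = w)).card ≤
      1 + Fintype.card α * (if w ∈ R u n then 1 else 0) := by
    intro w hw
    split_ifs with hR
    · have h1 : (T.filter (fun x => res x = w)).card ≤ (Finset.univ : Finset α).card := by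
        apply Finset.card_le_card_of_injOn (fun x => x (Fin.last n))
        · intro x _
          simp
        · intro x hx y hy hxy
          rw [Finset.mem_coe, Finset.mem_filter] at hx hy
          funext k
          refine Fin.lastCases ?_ (fun k => ?_) k
          · exact hxy
          · exact congrFun (hx.2.trans hy.2.symm) k
      rw [Finset.card_univ] at h1
      omega
    · suffices hone : (T.filter (fun x => res x = w)).card ≤ 1 by omega
      rw [Finset.card_le_one]
      intro x hx y hy
      rw [Finset.mem_filter, hT, Set.Finite.mem_toFinset] at hx hy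
      obtain ⟨⟨i, rfl⟩, hi⟩ := hx
      obtain ⟨⟨j, rfl⟩, hj⟩ := hy
      rw [hres] at hi hj
      rw [F_succ_eq_iff]
      refine ⟨hi.trans hj.symm, ?_⟩
      by_contra hne
      exact hR ⟨i, j, hi, hj, hne⟩
  have hcount : ∑ w ∈ S, (if w ∈ R u n then 1 else 0) = (S.filter (fun w => w ∈ R u n)).card := by
    rw [Finset.card_filter]
  constructor
  · rw [hp, hp1, hrho, hsum, ← hcount]
    calc S.card + ∑ w ∈ S, (if w ∈ R u n then 1 else 0)
        = ∑ w ∈ S, (1 + (if w ∈ R u n then 1 else 0)) := by
          rw [Finset.sum_add_distrib, Finset.card_eq_sum_ones]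
      _ ≤ _ := Finset.sum_le_sum hlow
  · rw [hp, hp1, hrho, hsum, ← hcount]
    calc ∑ w ∈ S, (T.filter (fun x => res x = w)).card
        ≤ ∑ w ∈ S, (1 + Fintype.card α * (if w ∈ R u n then 1 else 0)) := Finset.sum_le_sum hup
      _ = S.card + Fintype.card α * ∑ w ∈ S, (if w ∈ R u n then 1 else 0) := by
          rw [Finset.sum_add_distrib, Finset.card_eq_sum_ones, Finset.mul_sum]

theorem p_zero_le {α : Type} (u : ℕ → α) : p u 0 ≤ 1 := by
  unfold p
  rw [Set.ncard_le_one (Set.toFinite _)]
  intro a _ b _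
  exact Subsingleton.elim a b

theorem p_ge_sum {α : Type} [Fintype α] (u : ℕ → α) (n : ℕ) :
    ∑ m ∈ Finset.range n, rho u m ≤ p u n := by
  induction n with
  | zero => simp
  | succ n ih =>
    rw [Finset.sum_range_succ]
    have := (step u n).1
    omega

theorem p_le_sum {α : Type} [Fintype α] (u : ℕ → α) (n : ℕ) :
    p u n ≤ 1 + Fintype.card α * ∑ m ∈ Finset.range n, rho u m := by
  induction n with
  | zero => simpa using p_zero_le u
  | succ n ih =>
    rw [Finset.sum_range_succ]
    have := (step u n).2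
    rw [Nat.mul_add]
    omega

/-- Morse–Hedlund: a word without right special factors of some length is eventually periodic -/
theorem rho_pos {α : Type} [Fintype α] (u : ℕ → α)
    (hap : ¬ ∃ N p : ℕ, 0 < p ∧ ∀ n, N ≤ n → u (n + p) = u n) (n : ℕ) : 1 ≤ rho u n := by
  by_contra hlt
  have h0 : rho u n = 0 := by omega
  have hemp : R u n = ∅ := by
    rw [rho, Set.ncard_eq_zero (Set.toFinite _)] at h0
    exact h0
  have hdet : ∀ i j, F u n i = F u n j → u (i + n) = u (j + n) := by
    intro i j h
    by_contra hne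
    have : F u n j ∈ R u n := ⟨i, j, h, rfl, hne⟩
    rw [hemp] at this
    exact this
  obtain ⟨i, j, hij, hF⟩ := Finite.exists_ne_map_eq_of_infinite (F u n)
  wlog hlt' : i < j generalizing i j
  · exact this j i hij.symm hF.symm (by omega)
  apply hap
  have hk : ∀ k, F u n (i + k) = F u n (j + k) := by
    intro k
    induction k with
    | zero => exact hF
    | succ k ih =>
      rw [F_eq_iff] at ih ⊢
      intro t ht
      by_cases h : t + 1 < n
      · have := ih (t + 1) h
        rw [show i + (k + 1) + t = i + k + (t + 1) by ring,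
          show j + (k + 1) + t = j + k + (t + 1) by ring]
        exact this
      · have htn : t + 1 = n := by omega
        have := hdet (i + k) (j + k) (by rw [F_eq_iff]; exact ih)
        rw [show i + (k + 1) + t = i + k + n by omega,
          show j + (k + 1) + t = j + k + n by omega]
        exact this
  refine ⟨i + n, j - i, by omega, fun m hm => ?_⟩
  have := hdet (i + (m - (i + n))) (j + (m - (i + n))) (hk _)
  rw [show i + (m - (i + n)) + n = m by omega, show j + (m - (i + n)) + n = m + (j - i) by omega]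
    at this
  exact this.symm

/-! ### relation with the two-sided word -/

theorem twoSided_nonneg {α : Type} (u : ℕ → α) (i : ℕ) : twoSided u (i : ℤ) = some (u i) := by
  simp [twoSided]

theorem twoSided_neg {α : Type} (u : ℕ → α) (i : ℤ) (h : i < 0) : twoSided u i = none := by
  unfold twoSided
  rw [if_neg (by omega)]

theorem win_twoSided {α : Type} (u : ℕ → α) (i n : ℕ) :
    win (twoSided u) (i : ℤ) n = List.ofFn (fun j => some (F u n i j)) := by
  apply List.ext_getElem
  · simp
  · intro k h1 h2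
    rw [getElem_win, List.getElem_ofFn]
    rw [show ((i : ℤ) + (k : ℤ)) = ((i + k : ℕ) : ℤ) by push_cast; ring, twoSided_nonneg]
    rfl

theorem win_twoSided_neg {α : Type} (u : ℕ → α) (x : ℤ) (n : ℕ) (h : x + n ≤ 0) :
    win (twoSided u) x n = List.replicate n none := by
  apply List.ext_getElem
  · simp
  · intro k h1 h2
    rw [getElem_win, List.getElem_replicate, twoSided_neg]
    simp only [length_win] at h1
    omega

theorem RS_eq {α : Type} (u : ℕ → α) (n : ℕ) (hn : 1 ≤ n) :
    RS (twoSided u) n = insert (List.replicate n none)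
      ((fun w : Fin n → α => List.ofFn (fun j => some (w j))) '' R u n) := by
  ext w
  rw [Set.mem_insert_iff, Set.mem_image]
  constructor
  · rintro ⟨e, e', h1, h2, h3⟩
    by_cases he : 0 ≤ e - n
    · -- both occurrences are in the one-sided part
      have he' : 0 ≤ e' - n := by
        by_contra hneg
        have h4 := (win_eq_iff _ _ _ _ _).mp (h1.symm.trans h2) 0 (by omega)
        rw [twoSided_neg u (e' - n + (0 : ℕ)) (by push_cast; omega)] at h4
        obtain ⟨i, hi⟩ := Int.eq_ofNat_of_zero_le he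
        rw [show (e - n + ((0 : ℕ) : ℤ)) = ((i : ℕ) : ℤ) by push_cast; omega, twoSided_nonneg] at h4
        cases h4
      obtain ⟨i, hi⟩ := Int.eq_ofNat_of_zero_le he
      obtain ⟨j, hj⟩ := Int.eq_ofNat_of_zero_le he'
      right
      rw [hi, win_twoSided] at h1
      rw [hj, win_twoSided] at h2
      have hFF : F u n i = F u n j := by
        have := h1.symm.trans h2
        have h5 := List.ofFn_injective this
        funext k
        exact Option.some_injective _ (congrFun h5 k)
      refine ⟨F u n i, ⟨i, j, rfl, hFF.symm, ?_⟩, h1.symm⟩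
      intro h6
      apply h3
      rw [show e = ((i + n : ℕ) : ℤ) by push_cast; omega,
        show e' = ((j + n : ℕ) : ℤ) by push_cast; omega, twoSided_nonneg, twoSided_nonneg, h6]
    · left
      have he' : ¬ 0 ≤ e' - n := by
        intro hpos
        have h4 := (win_eq_iff _ _ _ _ _).mp (h1.symm.trans h2) 0 (by omega)
        rw [twoSided_neg u (e - n + (0 : ℕ)) (by push_cast; omega)] at h4
        obtain ⟨i, hi⟩ := Int.eq_ofNat_of_zero_le hpos
        rw [show (e' - n + ((0 : ℕ) : ℤ)) = ((i : ℕ) : ℤ) by push_cast; omega, twoSided_nonneg] at h4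
        cases h4
      have hne : e ≠ e' := by
        rintro rfl
        exact h3 rfl
      have key : ∀ a b : ℤ, a - n < 0 → b - n < 0 → a < b →
          win (twoSided u) (a - n) n = win (twoSided u) (b - n) n → b ≤ 0 := by
        intro a b ha hb hab hw
        by_contra hb0
        obtain ⟨k, hk⟩ := Int.eq_ofNat_of_zero_le (show (0 : ℤ) ≤ n - b by omega)
        have h4 := (win_eq_iff _ _ _ _ _).mp hw k (by omega)
        rw [twoSided_neg u (a - n + k) (by omega)] at h4
        rw [show (b - n + ((k : ℕ) : ℤ)) = ((0 : ℕ) : ℤ) by push_cast; omega, twoSided_nonneg] at h4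
        cases h4
      rcases lt_or_gt_of_ne hne with hlt | hlt
      · have := key e e' (by omega) (by omega) hlt (h1.symm.trans h2)
        rw [h1]
        exact win_twoSided_neg u _ n (by omega)
      · have := key e' e (by omega) (by omega) hlt (h2.symm.trans h1)
        rw [h2]
        exact win_twoSided_neg u _ n (by omega)
  · rintro (rfl | ⟨w', ⟨i, j, h1, h2, h3⟩, rfl⟩)
    · refine ⟨-1, 0, ?_, ?_, ?_⟩
      · exact (win_twoSided_neg u _ n (by omega)).symm
      · exact (win_twoSided_neg u _ n (by omega)).symm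
      · rw [twoSided_neg u (-1) (by omega), show (0 : ℤ) = ((0 : ℕ) : ℤ) by rfl, twoSided_nonneg]
        intro h
        cases h
    · refine ⟨((i + n : ℕ) : ℤ), ((j + n : ℕ) : ℤ), ?_, ?_, ?_⟩
      · rw [show (((i + n : ℕ) : ℤ) - n) = (i : ℤ) by push_cast; ring, win_twoSided, h1]
      · rw [show (((j + n : ℕ) : ℤ) - n) = (j : ℤ) by push_cast; ring, win_twoSided, h2]
      · rw [twoSided_nonneg, twoSided_nonneg]
        intro h
        exact h3 (Option.some_injective _ h)

theorem rs_twoSided {α : Type} [Fintype α] (u : ℕ → α) (n : ℕ) (hn : 1 ≤ n) :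
    rs (twoSided u) n = rho u n + 1 := by
  unfold rs
  rw [RS_eq u n hn, Set.ncard_insert_of_notMem _ ((Set.toFinite _).image _), Set.ncard_image_of_injective]
  · rfl
  · intro w w' h
    have h5 := List.ofFn_injective h
    funext k
    exact Option.some_injective _ (congrFun h5 k)
  · rintro ⟨w, -, h⟩
    have h1 : (List.ofFn (fun j => some (w j)))[0]'(by simp; omega) =
        (List.replicate n (none : Option α))[0]'(by simp; omega) := by
      simp only at h
      simp only [h]
    rw [List.getElem_ofFn, List.getElem_replicate] at h1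
    cases h1

/-! ### the Theta statement -/

theorem theta_aux {α : Type} [Fintype α] (u : ℕ → α) (K₁ K₂ : ℝ)
    (h : ∀ᶠ n : ℕ in Filter.atTop, (n : ℝ) * rho u n ≤ K₁ * p u n ∧ (p u n : ℝ) ≤ K₂ * (n * rho u n)) :
    (fun n : ℕ => ((p u (n + 1) : ℝ) - (p u n : ℝ))) =Θ[Filter.atTop]
      (fun n : ℕ => (p u n : ℝ) / (n : ℝ)) := by
  constructor
  · apply IsBigO.of_bound (Fintype.card α * K₁)
    filter_upwards [h, Filter.eventually_ge_atTop 1] with n hn hn1
    have hn0 : (0 : ℝ) < n := by exact_mod_cast hn1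
    obtain ⟨s1, s2⟩ := step u n
    have s1' : (p u n : ℝ) + rho u n ≤ p u (n + 1) := by exact_mod_cast s1
    have s2' : (p u (n + 1) : ℝ) ≤ p u n + Fintype.card α * rho u n := by exact_mod_cast s2
    have hr0 : (0 : ℝ) ≤ rho u n := by positivity
    rw [Real.norm_of_nonneg (by linarith), Real.norm_of_nonneg (by positivity)]
    have h1 : (rho u n : ℝ) ≤ K₁ * (p u n / n) := by
      rw [← mul_div_assoc, le_div_iff₀ hn0]
      linarith [hn.1]
    calc (p u (n + 1) : ℝ) - p u n ≤ Fintype.card α * rho u n := by linarith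
      _ ≤ Fintype.card α * (K₁ * (p u n / n)) := by
          apply mul_le_mul_of_nonneg_left h1 (by positivity)
      _ = _ := by ring
  · apply IsBigO.of_bound K₂
    filter_upwards [h, Filter.eventually_ge_atTop 1] with n hn hn1
    have hn0 : (0 : ℝ) < n := by exact_mod_cast hn1
    obtain ⟨s1, s2⟩ := step u n
    have s1' : (p u n : ℝ) + rho u n ≤ p u (n + 1) := by exact_mod_cast s1
    have hr0 : (0 : ℝ) ≤ rho u n := by positivity
    rw [Real.norm_of_nonneg (by positivity), Real.norm_of_nonneg (by linarith)]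
    have h1 : (p u n : ℝ) / n ≤ K₂ * rho u n := by
      rw [div_le_iff₀ hn0]
      linarith [hn.2]
    have hK : 0 ≤ K₂ ∨ (rho u n : ℝ) = 0 := by
      by_contra hcon
      push Not at hcon
      have h2 : K₂ * rho u n < 0 :=
        mul_neg_of_neg_of_pos hcon.1 (lt_of_le_of_ne hr0 (Ne.symm hcon.2))
      have h3 : (0 : ℝ) ≤ (p u n : ℝ) / n := by positivity
      linarith
    rcases hK with hK | hK
    · calc (p u n : ℝ) / n ≤ K₂ * rho u n := h1
        _ ≤ K₂ * (p u (n + 1) - p u n) := mul_le_mul_of_nonneg_left (by linarith) hK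
    · -- then `p u n = 0`, impossible; but the inequality holds anyway
      rw [hK, mul_zero] at h1
      have h3 : (0 : ℝ) ≤ (p u n : ℝ) / n := by positivity
      have hp0 : (p u n : ℝ) = 0 := by
        have := le_antisymm h1 h3
        rwa [div_eq_zero_iff, or_iff_left hn0.ne'] at this
      have hpos : 0 < p u n := by
        unfold p
        rw [Set.ncard_pos (Set.toFinite _)]
        exact ⟨F u n 0, 0, rfl⟩
      exfalso
      have : (0 : ℝ) < p u n := by exact_mod_cast hpos
      linarith

/-- the doubling estimates in ℕ -/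
theorem sum_le_of_dl (ρ : ℕ → ℕ) (C : ℕ) (h0 : ρ 0 ≤ 1)
    (h : ∀ n m : ℕ, 1 ≤ n → n ≤ m → m ≤ 2 * n → ρ n ≤ ρ m + C) (n : ℕ) (hn : 1 ≤ n) :
    ∑ m ∈ Finset.range n, ρ m ≤ n * ρ n + 4 * C * n + 1 := by
  induction n using Nat.strong_induction_on with
  | _ n ih =>
    rcases Nat.lt_or_ge n 2 with h2 | h2
    · have : n = 1 := by omega
      subst this
      simp only [Finset.range_one, Finset.sum_singleton]
      omega
    · set k := (n + 1) / 2 with hk
      have hk1 : 1 ≤ k := by omega
      have hkn : k < n := by omega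
      have h3 := ih k hkn hk1
      have h4 : ∑ m ∈ Finset.range n, ρ m = ∑ m ∈ Finset.range k, ρ m + ∑ m ∈ Finset.Ico k n, ρ m :=
        (Finset.sum_range_add_sum_Ico _ hkn.le).symm
      have h5 : ∑ m ∈ Finset.Ico k n, ρ m ≤ (n - k) * (ρ n + C) := by
        calc ∑ m ∈ Finset.Ico k n, ρ m ≤ ∑ m ∈ Finset.Ico k n, (ρ n + C) := by
              apply Finset.sum_le_sum
              intro m hm
              rw [Finset.mem_Ico] at hm
              exact h m n (by omega) (by omega) (by omega)
          _ = _ := by simp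
      have h6 : ρ k ≤ ρ n + C := h k n hk1 (by omega) (by omega)
      rw [h4]
      obtain ⟨d, hd⟩ : ∃ d, n = k + d := ⟨n - k, by omega⟩
      have hdk : n - k = d := by omega
      rw [hdk] at h5
      have h7 : k * ρ k ≤ k * (ρ n + C) := Nat.mul_le_mul_left _ h6
      have h8 : k ≤ d + 1 := by omega
      have hd1 : 1 ≤ d := by omega
      have h9 : C * k ≤ C * (d + 1) := Nat.mul_le_mul_left _ h8
      have h10 : C * 1 ≤ C * d := Nat.mul_le_mul_left _ hd1
      have h11 : n * ρ n = k * ρ n + d * ρ n := by rw [← Nat.add_mul, ← hd]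
      have h12 : 4 * C * n = 4 * (C * k) + 4 * (C * d) := by rw [hd]; ring
      rw [h11, h12]
      nlinarith

theorem theta_of_dl' {α : Type} [Fintype α] (u : ℕ → α)
    (hap : ¬ ∃ N p : ℕ, 0 < p ∧ ∀ n, N ≤ n → u (n + p) = u n) (C : ℕ)
    (h : ∀ n m : ℕ, n ≤ m → m ≤ 2 * n →
      rs (twoSided u) m ≤ rs (twoSided u) n + C ∧ rs (twoSided u) n ≤ rs (twoSided u) m + C) :
    (fun n : ℕ => ((p u (n + 1) : ℝ) - (p u n : ℝ))) =Θ[Filter.atTop]
      (fun n : ℕ => (p u n : ℝ) / (n : ℝ)) := by
  have hd : ∀ n m : ℕ, 1 ≤ n → n ≤ m → m ≤ 2 * n → rho u m ≤ rho u n + C ∧ rho u n ≤ rho u m + C := by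
    intro n m h1 h2 h3
    have := h n m h2 h3
    rw [rs_twoSided u n h1, rs_twoSided u m (by omega)] at this
    omega
  have hpos := rho_pos u hap
  have h00 : rho u 0 ≤ 1 := by
    unfold rho
    rw [Set.ncard_le_one (Set.toFinite _)]
    intro a _ b _
    exact Subsingleton.elim a b
  apply theta_aux u (3 * (C + 1)) (1 + Fintype.card α * (2 + 4 * C))
  filter_upwards [Filter.eventually_ge_atTop 2] with n hn
  constructor
  · have h1 : n * rho u n ≤ 3 * (C + 1) * p u n := by
      set k := (n + 1) / 2 with hk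
      have h2 : ∑ m ∈ Finset.Ico k n, rho u m ≤ p u n := by
        calc ∑ m ∈ Finset.Ico k n, rho u m ≤ ∑ m ∈ Finset.range n, rho u m := by
              apply Finset.sum_le_sum_of_subset
              intro m hm
              rw [Finset.mem_Ico] at hm
              rw [Finset.mem_range]
              exact hm.2
          _ ≤ _ := p_ge_sum u n
      have h3 : (n - k) * rho u n ≤ (C + 1) * ∑ m ∈ Finset.Ico k n, rho u m := by
        rw [Finset.mul_sum]
        calc (n - k) * rho u n = ∑ m ∈ Finset.Ico k n, rho u n := by simp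
          _ ≤ _ := by
            apply Finset.sum_le_sum
            intro m hm
            rw [Finset.mem_Ico] at hm
            have h4 := (hd m n (by omega) (by omega) (by omega)).1
            have h5 := hpos m
            nlinarith
      have h6 : n ≤ 3 * (n - k) := by omega
      calc n * rho u n ≤ 3 * (n - k) * rho u n := Nat.mul_le_mul_right _ h6
        _ = 3 * ((n - k) * rho u n) := by ring
        _ ≤ 3 * ((C + 1) * ∑ m ∈ Finset.Ico k n, rho u m) := Nat.mul_le_mul_left _ h3
        _ ≤ 3 * ((C + 1) * p u n) := Nat.mul_le_mul_left _ (Nat.mul_le_mul_left _ h2)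
        _ = _ := by ring
    exact_mod_cast h1
  · have h1 : p u n ≤ (1 + Fintype.card α * (2 + 4 * C)) * (n * rho u n) := by
      have h2 := p_le_sum u n
      have h3 := sum_le_of_dl (rho u) C h00 (fun a b ha hab hb => (hd a b ha hab hb).2) n (by omega)
      have h4 : 1 ≤ n * rho u n := Nat.mul_pos (by omega) (hpos n)
      have h5 : n ≤ n * rho u n := Nat.le_mul_of_pos_right _ (hpos n)
      have h6 : ∑ m ∈ Finset.range n, rho u m ≤ (2 + 4 * C) * (n * rho u n) := by
        have h7 : 4 * C * n ≤ 4 * C * (n * rho u n) := Nat.mul_le_mul_left _ h5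
        nlinarith
      calc p u n ≤ 1 + Fintype.card α * ∑ m ∈ Finset.range n, rho u m := h2
        _ ≤ 1 + Fintype.card α * ((2 + 4 * C) * (n * rho u n)) :=
            Nat.add_le_add_left (Nat.mul_le_mul_left _ h6) _
        _ ≤ (n * rho u n) + Fintype.card α * ((2 + 4 * C) * (n * rho u n)) :=
            Nat.add_le_add_right h4 _
        _ = _ := by ring
    exact_mod_cast h1

theorem theta_of_dl {α : Type} [Fintype α] (u : ℕ → α)
    (hap : ¬ ∃ N p : ℕ, 0 < p ∧ ∀ n, N ≤ n → u (n + p) = u n) (C : ℕ)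
    (h : ∀ n m : ℕ, n ≤ m → m ≤ 2 * n →
      rs (twoSided u) m ≤ rs (twoSided u) n + C ∧ rs (twoSided u) n ≤ rs (twoSided u) m + C) :
    (fun n : ℕ =>
          ((Set.range (fun i : ℕ => fun j : Fin (n + 1) => u (i + j.val))).ncard : ℝ)
            - ((Set.range (fun i : ℕ => fun j : Fin n => u (i + j.val))).ncard : ℝ))
        =Θ[Filter.atTop]
      (fun n : ℕ =>
          ((Set.range (fun i : ℕ => fun j : Fin n => u (i + j.val))).ncard : ℝ) / (n : ℝ)) :=
  theta_of_dl' u hap C h

theorem theta_of_linear' {α : Type} [Fintype α] (u : ℕ → α) (c C : ℝ) (hc : 0 < c)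
    (h : ∀ᶠ n : ℕ in Filter.atTop, c * n ≤ rs (twoSided u) n ∧ (rs (twoSided u) n : ℝ) ≤ C * n) :
    (fun n : ℕ => ((p u (n + 1) : ℝ) - (p u n : ℝ))) =Θ[Filter.atTop]
      (fun n : ℕ => (p u n : ℝ) / (n : ℝ)) := by
  obtain ⟨N₀, hN₀⟩ := Filter.eventually_atTop.mp h
  obtain ⟨M, hM⟩ := exists_nat_ge (2 / c)
  set N := max (max N₀ M) 1 with hN
  have hN1 : 1 ≤ N := le_max_right _ _
  have hNN₀ : N₀ ≤ N := (le_max_left _ _).trans (le_max_left _ _)
  have hNM : M ≤ N := (le_max_right _ _).trans (le_max_left _ _)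
  have hρ : ∀ n : ℕ, N ≤ n → c / 2 * n ≤ rho u n ∧ (rho u n : ℝ) ≤ C * n := by
    intro n hn
    have h1 := hN₀ n (hNN₀.trans hn)
    rw [rs_twoSided u n (hN1.trans hn)] at h1
    push_cast at h1
    have h2 : 2 / c ≤ n := hM.trans (by exact_mod_cast hNM.trans hn)
    rw [div_le_iff₀ hc] at h2
    constructor
    · nlinarith [h1.1]
    · linarith [h1.2]
  have hC : 0 < C := by
    have h1 := hρ N le_rfl
    have h2 : (0 : ℝ) < N := by exact_mod_cast hN1
    have h3 : 0 < c / 2 * N := by positivity
    have h4 : 0 < C * N := by linarith [h1.1, h1.2]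
    exact (pos_iff_pos_of_mul_pos h4).mpr h2
  -- lower bound for `p`
  have hlow : ∀ n : ℕ, 2 * N ≤ n → c / 12 * (n : ℝ) ^ 2 ≤ p u n := by
    intro n hn
    set k := (n + 1) / 2 with hk
    have h2 : ∑ m ∈ Finset.Ico k n, rho u m ≤ p u n := by
      calc ∑ m ∈ Finset.Ico k n, rho u m ≤ ∑ m ∈ Finset.range n, rho u m := by
            apply Finset.sum_le_sum_of_subset
            intro m hm
            rw [Finset.mem_Ico] at hm
            rw [Finset.mem_range]
            exact hm.2
        _ ≤ _ := p_ge_sum u n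
    have h2' : ∑ m ∈ Finset.Ico k n, (rho u m : ℝ) ≤ p u n := by exact_mod_cast h2
    have h3 : ∑ m ∈ Finset.Ico k n, (c / 4 * n) ≤ ∑ m ∈ Finset.Ico k n, (rho u m : ℝ) := by
      apply Finset.sum_le_sum
      intro m hm
      rw [Finset.mem_Ico] at hm
      have h4 := (hρ m (by omega)).1
      have h5 : (n : ℝ) ≤ 2 * m := by exact_mod_cast (by omega : n ≤ 2 * m)
      nlinarith
    rw [Finset.sum_const, Nat.card_Ico, nsmul_eq_mul] at h3
    have h6 : (n : ℝ) ≤ 3 * ((n - k : ℕ) : ℝ) := by exact_mod_cast (by omega : n ≤ 3 * (n - k))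
    have h7 : (0 : ℝ) ≤ n := by positivity
    have h8 : c / 12 * (n : ℝ) ^ 2 ≤ ((n - k : ℕ) : ℝ) * (c / 4 * n) := by
      have h9 : (0 : ℝ) ≤ c / 12 * n := by positivity
      nlinarith [mul_le_mul_of_nonneg_left h6 h9]
    linarith
  -- upper bound for `p`
  obtain ⟨D, hD⟩ : ∃ D : ℝ, 0 ≤ D ∧ ∀ n : ℕ, N ≤ n → (p u n : ℝ) ≤ D * (n : ℝ) ^ 2 := by
    set S : ℝ := ∑ m ∈ Finset.range N, (rho u m : ℝ) with hS
    have hS0 : 0 ≤ S := Finset.sum_nonneg (fun _ _ => by positivity)
    refine ⟨1 + Fintype.card α * (S + C), by positivity, fun n hn => ?_⟩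
    have h1 : (p u n : ℝ) ≤ 1 + Fintype.card α * ∑ m ∈ Finset.range n, (rho u m : ℝ) := by
      exact_mod_cast p_le_sum u n
    have h2 : ∑ m ∈ Finset.range n, (rho u m : ℝ) ≤ S + C * (n : ℝ) ^ 2 := by
      rw [← Finset.sum_range_add_sum_Ico _ hn]
      have h3 : ∑ m ∈ Finset.Ico N n, (rho u m : ℝ) ≤ ∑ m ∈ Finset.Ico N n, (C * n) := by
        apply Finset.sum_le_sum
        intro m hm
        rw [Finset.mem_Ico] at hm
        have h4 := (hρ m hm.1).2
        have h5 : (m : ℝ) ≤ n := by exact_mod_cast hm.2.le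
        nlinarith
      rw [Finset.sum_const, Nat.card_Ico, nsmul_eq_mul] at h3
      have h6 : ((n - N : ℕ) : ℝ) ≤ n := by exact_mod_cast Nat.sub_le n N
      have h7 : (0 : ℝ) ≤ C * n := by positivity
      nlinarith [mul_le_mul_of_nonneg_right h6 h7]
    have hn1 : (1 : ℝ) ≤ (n : ℝ) ^ 2 := by
      have : (1 : ℝ) ≤ n := by exact_mod_cast hN1.trans hn
      nlinarith
    have h8 : S + C * (n : ℝ) ^ 2 ≤ (S + C) * (n : ℝ) ^ 2 := by nlinarith
    calc (p u n : ℝ) ≤ 1 + Fintype.card α * ∑ m ∈ Finset.range n, (rho u m : ℝ) := h1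
      _ ≤ 1 + Fintype.card α * ((S + C) * (n : ℝ) ^ 2) := by
          have := mul_le_mul_of_nonneg_left (h2.trans h8) (Nat.cast_nonneg (α := ℝ) (Fintype.card α))
          linarith
      _ ≤ (n : ℝ) ^ 2 + Fintype.card α * ((S + C) * (n : ℝ) ^ 2) := by linarith
      _ = _ := by ring
  apply theta_aux u (12 * C / c) (2 * D / c)
  filter_upwards [Filter.eventually_ge_atTop (2 * N)] with n hn
  have hnN : N ≤ n := by omega
  obtain ⟨r1, r2⟩ := hρ n hnN
  have hn0 : (0 : ℝ) ≤ n := by positivity
  constructor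
  · have h1 := hlow n hn
    calc (n : ℝ) * rho u n ≤ n * (C * n) := mul_le_mul_of_nonneg_left r2 hn0
      _ = 12 * C / c * (c / 12 * (n : ℝ) ^ 2) := by field_simp
      _ ≤ 12 * C / c * p u n := mul_le_mul_of_nonneg_left h1 (by positivity)
  · have h1 := hD.2 n hnN
    calc (p u n : ℝ) ≤ D * (n : ℝ) ^ 2 := h1
      _ = 2 * D / c * (n * (c / 2 * n)) := by field_simp
      _ ≤ 2 * D / c * (n * rho u n) := by
          apply mul_le_mul_of_nonneg_left _ (div_nonneg (by linarith [hD.1]) hc.le)
          exact mul_le_mul_of_nonneg_left r1 hn0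

theorem theta_of_linear {α : Type} [Fintype α] (u : ℕ → α) (c C : ℝ) (hc : 0 < c)
    (h : ∀ᶠ n : ℕ in Filter.atTop, c * n ≤ rs (twoSided u) n ∧ (rs (twoSided u) n : ℝ) ≤ C * n) :
    (fun n : ℕ =>
          ((Set.range (fun i : ℕ => fun j : Fin (n + 1) => u (i + j.val))).ncard : ℝ)
            - ((Set.range (fun i : ℕ => fun j : Fin n => u (i + j.val))).ncard : ℝ))
        =Θ[Filter.atTop]
      (fun n : ℕ =>
          ((Set.range (fun i : ℕ => fun j : Fin n => u (i + j.val))).ncard : ℝ) / (n : ℝ)) :=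
  theta_of_linear' u c C hc h

end Pool.Agent.H30.MW
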